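import Pool.Agent.H24.L5.KGN
import Pool.Agent.H9.KRN.Cls

/-!
# L5, row CLK: the inequality in one class
-/

set_option autoImplicit false

namespace Pool.L5

open Finset Real
open Pool.Agent.H49.Ent Pool.Agent.H32.Dense Pool.STK Pool.KA Pool.GP Pool.KRN

theorem clk : CLKStmt := by
  intro hCOA hTWF hKCH hKGN K C N hK
  obtain ⟨C₀, hC₀, hcoa⟩ := hCOA
  obtain ⟨B₁, hB₁⟩ := hKGN hTWF 4 2 N 3 (by norm_num) (by norm_num)
  obtain ⟨B₂, hB₂⟩ := hKCH 4 2 2 C 3 (by norm_num)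
  refine ⟨2 * |B₁| * (C₀ + 1) + |B₂| + 10 * Real.log 3, by positivity, ?_⟩
  intro J G g F κ A a hl b τ n₀ e hG hg hu ha hτ he hBd hmin
  obtain ⟨F', hF'⟩ : ∃ F', F' = F.res A a hl := ⟨_, rfl⟩
  have hlog2 : 0 < Real.log 2 := Real.log_pos (by norm_num)
  have hlog2' : Real.log 2 ≤ 1 := by linarith [Real.log_two_lt_d9]
  have hlog3 : 0 < Real.log 3 := Real.log_pos (by norm_num)
  have hn := hl.nonneg
  obtain ⟨q, hq⟩ : ∃ q, q = cond F.p A a := ⟨_, rfl⟩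
  -- energies
  have hGf : ∀ l : Fin 2, Gf (2 ^ J) (cond F.p A a) (Lb F (r1 b (τ l))) (tz F) ≤
      C₀ * (Gl (F.res A a hl) + 1) := by
    intro l
    have h := hcoa J (F.res A a hl).Ω _ _ (F.res A a hl).p (F.res A a hl).l
      (Lb (F.res A a hl) (r1 b (τ l))) (tz (F.res A a hl)) hl.nonneg hl.sum_one
      (fun ω _ => ⟨by unfold tz; positivity, by
        have := (F.res A a hl).tim ω
        unfold tz
        exact_mod_cast this⟩)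
      (fun ω ω' _ _ h => Lb_of_l (F.res A a hl) _ ω ω' h)
    exact h
  have hGl0 : 0 ≤ Gl (F.res A a hl) := Gf_tz_nonneg (F.res A a hl) hl.nonneg (F.res A a hl).l
  -- (B)
  have hBB : ∀ l : Fin 2, H (cond F.p A a) (Lb F (r1 b (τ l))) / 2 +
      CH (cond F.p A a) (F.D (g n₀)) (Lb F (r1 b (τ l))) +
        ((2 * (J - g n₀) : ℕ) : ℝ) * Real.log 2 + Real.log (law F.p A a) + J * Real.log 2 ≤
      Sl (F.res A a hl) + 3 * Kl (F.res A a hl) + e +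
        |B₁| * ((C₀ + 1) * (Gl (F.res A a hl) + 1)) + ((2 : ℕ) : ℝ) * G * Real.log 2 := by
    intro l
    have h := hB₁ J G g F κ A a hl (r1 b (τ l)) n₀ e hg ha (fun _ => hG.le _)
      (fun r => hBd (mq r) (mq_le r) _ _) (hmin l)
    have h2 : B₁ * (Gf (2 ^ J) (cond F.p A a) (Lb F (r1 b (τ l))) (tz F) + 1) ≤
        |B₁| * ((C₀ + 1) * (Gl (F.res A a hl) + 1)) := by
      have h3 : 0 ≤ Gf (2 ^ J) (cond F.p A a) (Lb F (r1 b (τ l))) (tz F) :=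
        Gf_tz_nonneg F hn _
      have h4 := hGf l
      calc B₁ * (Gf (2 ^ J) (cond F.p A a) (Lb F (r1 b (τ l))) (tz F) + 1)
          ≤ |B₁| * (Gf (2 ^ J) (cond F.p A a) (Lb F (r1 b (τ l))) (tz F) + 1) :=
            mul_le_mul_of_nonneg_right (le_abs_self _) (by linarith)
        _ ≤ |B₁| * ((C₀ + 1) * (Gl (F.res A a hl) + 1)) := by
            refine mul_le_mul_of_nonneg_left ?_ (abs_nonneg _)
            have : (C₀ + 1) * (Gl (F.res A a hl) + 1) =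
              C₀ * (Gl (F.res A a hl) + 1) + (Gl (F.res A a hl) + 1) := by ring
            rw [this]
            linarith
    linarith
  have hB0 := hBB 0
  have hB1 := hBB 1
  -- (A)
  obtain ⟨c, hc, hdet⟩ := exists_compl (j := 2) (j' := 2) hG hK (by norm_num) τ hτ
  have hA := hB₂ J (F.res A a hl) (fun l => b (τ l)) c (fun l => hG.le _) hc hdet e
    (hBd _ (fun l => hG.le _) _ _) (hBd _ hc _ _)
  have e1 : H (F.res A a hl).p ((F.res A a hl).D J) = H (cond F.p A a) (F.D J) := rfl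
  have e2 : H (F.res A a hl).p (Lb (F.res A a hl) (fun l => b (τ l))) =
      H (cond F.p A a) (Lb F (fun l => b (τ l))) := rfl
  rw [e1, e2] at hA
  have hs := sub_two F hl b τ (F.D (g n₀))
  have ht := H_trc F hl (hg.le n₀)
  have l0 := H_L1 F hu hl hG.le (τ 0)
  have l1 := H_L1 F hu hl hG.le (τ 1)
  have h2 : ((2 * (J - g n₀) : ℕ) : ℝ) * Real.log 2 = 2 * (((J : ℝ) - g n₀) * Real.log 2) := by
    push_cast
    rw [Nat.cast_sub (hg.le n₀)]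
    ring
  rw [h2] at hB0 hB1
  obtain ⟨Gq, hGq⟩ : ∃ Gq : ℝ, Gq = Gl (F.res A a hl) + 1 := ⟨_, rfl⟩
  have hGq1 : 1 ≤ Gq := by rw [hGq]; linarith
  rw [← hGq] at hB0 hB1 ⊢
  have hb2 : B₂ ≤ |B₂| * Gq := by
    calc B₂ ≤ |B₂| * 1 := by rw [mul_one]; exact le_abs_self _
      _ ≤ |B₂| * Gq := mul_le_mul_of_nonneg_left hGq1 (abs_nonneg _)
  have hl3 : 10 * Real.log 3 ≤ 10 * Real.log 3 * Gq := by
    have : 10 * Real.log 3 * 1 ≤ 10 * Real.log 3 * Gq :=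
      mul_le_mul_of_nonneg_left hGq1 (by positivity)
    linarith
  have hg2 : ((2 : ℕ) : ℝ) * G * Real.log 2 ≤ 2 * G := by
    have : (2 : ℝ) * G * Real.log 2 ≤ 2 * G * 1 :=
      mul_le_mul_of_nonneg_left hlog2' (by positivity)
    push_cast
    linarith
  have hG0 : (0 : ℝ) ≤ G := Nat.cast_nonneg _
  have hfin : (2 * |B₁| * (C₀ + 1) + |B₂| + 10 * Real.log 3) * Gq =
      2 * (|B₁| * ((C₀ + 1) * Gq)) + |B₂| * Gq + 10 * Real.log 3 * Gq := by ring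
  rw [hfin]
  push_cast at ht hA l0 l1 hB0 hB1 hg2
  obtain ⟨S, hS⟩ : ∃ S : ℝ, S = Sl (F.res A a hl) := ⟨_, rfl⟩
  obtain ⟨Kq, hKq⟩ : ∃ Kq : ℝ, Kq = Kl (F.res A a hl) := ⟨_, rfl⟩
  obtain ⟨Λ, hΛ⟩ : ∃ Λ : ℝ, Λ = Real.log (law F.p A a) := ⟨_, rfl⟩
  obtain ⟨L, hL⟩ : ∃ L : ℝ, L = J * Real.log 2 := ⟨_, rfl⟩
  obtain ⟨y, hy⟩ : ∃ y : ℝ, y = ((J : ℝ) - g n₀) * Real.log 2 := ⟨_, rfl⟩
  obtain ⟨W, hW⟩ : ∃ W : ℝ, W = |B₁| * ((C₀ + 1) * Gq) := ⟨_, rfl⟩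
  rw [← hS, ← hKq, ← hL] at hA
  rw [← hS, ← hKq, ← hL, ← hΛ, ← hy, ← hW] at hB0 hB1
  rw [← hL] at l0 l1
  rw [← hy] at ht
  rw [← hS, ← hKq, ← hL, ← hΛ, ← hW]
  have z1 : 2 * H (cond F.p A a) (F.D J) + H (cond F.p A a) (F.D (g n₀)) -
      (H (cond F.p A a) (Lb F (r1 b (τ 0))) + H (cond F.p A a) (Lb F (r1 b (τ 1)))) / 2 +
      4 * y + 2 * Λ + L ≤ 3 * S + 11 * Kq + 4 * e + B₂ + 2 * W + 4 * G := by
    linarith
  linarith

end Pool.L5
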