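import Pool.Agent.H24.L5.Stmts

/-!
# L5, row KCH: the chain, with the time
-/

set_option autoImplicit false

namespace Pool.L5

open Finset Real
open Pool.Agent.H49.Ent Pool.Agent.H32.Dense Pool.STK Pool.KA Pool.GP Pool.KRN

variable {m j j' : ℕ}

theorem kch : KCHStmt := by
  intro m j j' C β hβ
  refine ⟨Cc m j j' C, ?_⟩
  intro J F b c hb hc hdet e h1 h2
  have hn := F.isLaw.nonneg
  have hp := F.isLaw
  obtain ⟨K, hK⟩ : ∃ K : ℝ, K = m * Real.log (2 * ((C + 1 : ℕ) : ℝ) + 1) := ⟨_, rfl⟩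
  obtain ⟨L, hL⟩ : ∃ L : ℝ, L = J * Real.log 2 := ⟨_, rfl⟩
  unfold Bd at h1 h2
  obtain ⟨xb, hxb⟩ : ∃ xb : F.Ω → Fin j → ℤ, xb = fun ω => fl J (mv b (F.x ω)) := ⟨_, rfl⟩
  obtain ⟨xc, hxc⟩ : ∃ xc : F.Ω → Fin j' → ℤ, xc = fun ω => fl J (mv c (F.x ω)) := ⟨_, rfl⟩
  obtain ⟨db, hdb⟩ : ∃ db : F.Ω → Fin j → ℤ, db = fun ω => fl J (mv b (F.d ω)) := ⟨_, rfl⟩
  obtain ⟨dc, hdc⟩ : ∃ dc : F.Ω → Fin j' → ℤ, dc = fun ω => fl J (mv c (F.d ω)) := ⟨_, rfl⟩
  have x1 : (fun ω => (fl J (mv b (F.x ω)), F.T ω)) = fun ω => (xb ω, F.T ω) := by rw [hxb]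
  have x2 : (fun ω => (fl J (mv c (F.x ω)), F.T ω)) = fun ω => (xc ω, F.T ω) := by rw [hxc]
  rw [x1, ← hdb, ← hL] at h1
  rw [x2, ← hdc, ← hL] at h2
  -- the trivial side information
  have e1 : CH F.p db (fun _ : F.Ω => ()) = H F.p db := by
    unfold CH
    rw [H_const hp.sum_one, sub_zero]
    exact H_congr hn (fun ω ω' _ _ h => Prod.ext h rfl) (fun ω ω' _ _ h => (Prod.ext_iff.mp h).1)
  have e2 : CH F.p (fun ω => (xb ω, F.T ω)) (fun _ : F.Ω => ()) =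
      H F.p (fun ω => (xb ω, F.T ω)) := by
    unfold CH
    rw [H_const hp.sum_one, sub_zero]
    exact H_congr hn (fun ω ω' _ _ h => Prod.ext h rfl) (fun ω ω' _ _ h => (Prod.ext_iff.mp h).1)
  have e3 : CH F.p F.T (fun ω => (Lb F b ω, ())) = CH F.p F.T (Lb F b) :=
    CH_congr hn (fun ω ω' _ _ h => (Prod.ext_iff.mp h).1)
      (fun ω ω' _ _ h => (Prod.ext_iff.mp h).1)
      (fun ω ω' _ _ h => (Prod.ext_iff.mp h).1) (fun ω ω' _ _ h => Prod.ext h rfl)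
  rw [e1, e2, e3] at h1
  -- the deficits
  have d1 : CH F.p F.T F.l ≤ CH F.p F.T (Lb F b) :=
    CH_mono_cond hn fun ω ω' _ _ h => Lb_of_l F b ω ω' h
  have d2 : CH F.p F.T F.l ≤ CH F.p F.T (fun ω => (Lb F c ω, Lb F b ω)) :=
    CH_mono_cond hn fun ω ω' _ _ h => Prod.ext (Lb_of_l F c ω ω' h) (Lb_of_l F b ω ω' h)
  -- step 1
  have s1 : CH F.p (fun ω => (xc ω, xb ω)) F.T ≤ CH F.p (F.X J) F.T + (j + j') * Real.log 3 := by
    have k1 := CH_le_add hn (fun ω => (xc ω, xb ω)) (F.X J) F.T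
    have k2 := CH_subadd hn xc xb (fun ω => (F.X J ω, F.T ω))
    have k3 := CH_img (J := J) hp hc F.x (fun ω => (F.X J ω, F.T ω))
      (fun ω ω' h => (Prod.ext_iff.mp h).1)
    have k4 := CH_img (J := J) hp hb F.x (fun ω => (F.X J ω, F.T ω))
      (fun ω ω' h => (Prod.ext_iff.mp h).1)
    rw [← hxc] at k3
    rw [← hxb] at k4
    linarith
  rw [CH_chain hn] at s1
  -- step 3
  have s3 : CH F.p xc (fun ω => (F.T ω, Lb F b ω)) ≤
      CH F.p xc (fun ω => (xb ω, F.T ω)) + j * Real.log 5 := by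
    have k1 := CH_le_add hn xc xb (fun ω => (F.T ω, Lb F b ω))
    have k2 := CH_pos F (M := b) (fun ω => (F.T ω, Lb F b ω))
      (fun ω ω' h => ⟨(Prod.ext_iff.mp h).2, (Prod.ext_iff.mp h).1⟩)
    rw [← hxb] at k2
    have k3 := CH_mono_cond hn (X := xc) (W' := fun ω => (xb ω, (F.T ω, Lb F b ω)))
      (W := fun ω => (xb ω, F.T ω)) (fun ω ω' _ _ h => by
        have e := Prod.ext_iff.mp h
        exact Prod.ext e.1 (Prod.ext_iff.mp e.2).1)
    linarith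
  -- the pairs with the time
  have p1 : H F.p (fun ω => (xb ω, F.T ω)) = H F.p F.T + CH F.p xb F.T := by
    unfold CH
    ring
  have p2 : Sl F = H F.p F.T + CH F.p (F.X J) F.T := by
    unfold Sl CH
    ring
  have p3 := CH_chain hn xc F.T (Lb F b)
  -- step 5
  have s5 : H F.p (F.D J) ≤ H F.p (Lb F b) + CH F.p dc (Lb F b) + K := by
    have k1 := CH_inv (J := J) hp hdet F.d (fun ω => (dc ω, Lb F b ω)) (by
      intro ω ω' h
      have e := Prod.ext_iff.mp h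
      have e1 : dc ω = dc ω' := e.1
      rw [hdc] at e1
      exact ⟨(Prod.ext_iff.mp e.2).2, e1⟩)
    rw [← hK] at k1
    have k2 : H F.p (F.D J) ≤ H F.p (fun ω => (dc ω, Lb F b ω)) +
        CH F.p (F.D J) (fun ω => (dc ω, Lb F b ω)) := by
      unfold CH
      have := H_mono hn (X := fun ω => (F.D J ω, (dc ω, Lb F b ω))) (Y := F.D J)
        (fun ω ω' _ _ h => (Prod.ext_iff.mp h).1)
      linarith
    have k3 : H F.p (fun ω => (dc ω, Lb F b ω)) = H F.p (Lb F b) + CH F.p dc (Lb F b) := by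
      unfold CH
      ring
    have k4 : CH F.p (F.D J) (fun ω => (dc ω, Lb F b ω)) ≤ K := k1
    linarith
  -- step 2'
  have s2 : H F.p (F.D J) ≤ H F.p db + j' * (L + Real.log 3) + K := by
    have k1 := CH_inv (J := J) hp hdet F.d (fun ω => (dc ω, db ω)) (by
      intro ω ω' h
      have e := Prod.ext_iff.mp h
      have e1 : dc ω = dc ω' := e.1
      have e2 : db ω = db ω' := e.2
      rw [hdc] at e1
      rw [hdb] at e2
      exact ⟨e2, e1⟩)
    rw [← hK] at k1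
    have k2 : H F.p (F.D J) ≤ H F.p (fun ω => (dc ω, db ω)) +
        CH F.p (F.D J) (fun ω => (dc ω, db ω)) := by
      unfold CH
      have := H_mono hn (X := fun ω => (F.D J ω, (dc ω, db ω))) (Y := F.D J)
        (fun ω ω' _ _ h => (Prod.ext_iff.mp h).1)
      linarith
    have k3 := subadd hn hp.sum_one (X := dc) (Y := db) (W := fun ω => (dc ω, db ω))
      (fun ω ω' _ _ h => h)
    have k4 : H F.p dc ≤ j' * (L + Real.log 3) := by
      have := H_dir_le (img F c hc (Lb F b))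
      have e : (img F c hc (Lb F b)).D J = dc := by
        rw [hdc]
        rfl
      rw [e, ← hL] at this
      exact this
    have k5 : CH F.p (F.D J) (fun ω => (dc ω, db ω)) ≤ K := k1
    linarith
  have hK0 : 0 ≤ K := by
    rw [hK]
    refine mul_nonneg (Nat.cast_nonneg _) (Real.log_nonneg ?_)
    have : (0 : ℝ) ≤ ((C + 1 : ℕ) : ℝ) := Nat.cast_nonneg _
    linarith
  unfold Kl Cc
  rw [← hK, ← hL]
  obtain ⟨k2, hk2⟩ : ∃ k2 : ℝ, k2 = L - CH F.p F.T (Lb F b) := ⟨_, rfl⟩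
  obtain ⟨k3, hk3⟩ : ∃ k3 : ℝ, k3 = L - CH F.p F.T (fun ω => (Lb F c ω, Lb F b ω)) := ⟨_, rfl⟩
  obtain ⟨Kq, hKq⟩ : ∃ Kq : ℝ, Kq = L - CH F.p F.T F.l := ⟨_, rfl⟩
  have q1 : k2 ≤ Kq := by rw [hk2, hKq]; linarith
  have q2 : k3 ≤ Kq := by rw [hk3, hKq]; linarith
  rw [← hKq]
  rw [← hk2] at h1
  rw [← hk3] at h2
  have q3 : (β - 1) * k2 ≤ (β - 1) * Kq := mul_le_mul_of_nonneg_left q1 (by linarith)
  have q4 : β * k3 ≤ β * Kq := mul_le_mul_of_nonneg_left q2 (by linarith)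
  have q5 : CH F.p F.T (Lb F b) = L - k2 := by rw [hk2]; ring
  rw [q5] at p3
  rw [p1] at h1
  rw [p2]
  linarith

end Pool.L5
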